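import Mathlib
import Pool.Agent.H740R3.BQMain

set_option autoImplicit false

/-!
# Hypercyclic operators with spectrum `{1}` whose square direct sum is not cyclic

Every separable infinite-dimensional complex Banach space carries a hypercyclic operator `T` such that
`T ⊕ T` is not cyclic and the spectrum of `T` is `{1}`; so `T` is invertible and a quasinilpotent
perturbation of the identity.
-/

open Filter Topology

namespace Pool.Agent.Results.MP_7da968_an.SpectrumOne

universe u

/-- `T` is hypercyclic: some orbit is dense -/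
def Hypercyclic {X : Type u} [NormedAddCommGroup X] [NormedSpace ℂ X] (T : X →L[ℂ] X) : Prop :=
  ∃ x : X, Dense (Set.range (fun n : ℕ => (T ^ n) x))

/-- `T` is cyclic: the linear span of some orbit is dense -/
def Cyclic {X : Type u} [NormedAddCommGroup X] [NormedSpace ℂ X] (T : X →L[ℂ] X) : Prop :=
  ∃ x : X, Dense ((Submodule.span ℂ (Set.range (fun n : ℕ => (T ^ n) x)) : Submodule ℂ X) : Set X)

/-- Every separable infinite-dimensional complex Banach space carries a hypercyclic operator `T`
such that `T ⊕ T` is not cyclic, the spectrum of `T` is `{1}`, `T` is invertible and `T - 1` is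
quasinilpotent. -/
theorem result (X : Type u) [NormedAddCommGroup X] [NormedSpace ℂ X] [CompleteSpace X]
    [TopologicalSpace.SeparableSpace X] (hX : ¬ FiniteDimensional ℂ X) :
    ∃ T : X →L[ℂ] X, Hypercyclic T ∧ ¬ Cyclic (T.prodMap T) ∧ spectrum ℂ T = {1} ∧ IsUnit T ∧
      Tendsto (fun n : ℕ => ‖(T - 1) ^ n‖ ^ (1 / (n : ℝ))) atTop (𝓝 0) := by
  obtain ⟨T, h1, h2, h3⟩ := Pool.Agent.H740R3.BQ.every X hX
  refine ⟨T, h1, h2, h3, ?_, ?_⟩
  · have h4 : (0 : ℂ) ∉ spectrum ℂ T := by
      rw [h3]
      intro h
      exact zero_ne_one (Set.mem_singleton_iff.1 h)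
    exact spectrum.isUnit_of_zero_notMem ℂ h4
  · have h5 : spectrum ℂ (T - 1) ⊆ {0} := by
      intro z hz
      have h7 : z + 1 ∈ spectrum ℂ T := by
        have h8 : algebraMap ℂ (X →L[ℂ] X) (z + 1) - T = algebraMap ℂ (X →L[ℂ] X) z - (T - 1) := by
          rw [map_add, map_one]
          abel
        rw [spectrum.mem_iff] at hz ⊢
        rwa [h8]
      rw [h3, Set.mem_singleton_iff] at h7
      rw [Set.mem_singleton_iff]
      linear_combination h7
    have h9 : spectralRadius ℂ (T - 1) = 0 := by
      rw [← nonpos_iff_eq_zero]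
      refine iSup₂_le fun z hz => ?_
      rw [Set.mem_singleton_iff.1 (h5 hz)]
      simp
    have h10 := spectrum.pow_norm_pow_one_div_tendsto_nhds_spectralRadius (T - 1)
    rw [h9] at h10
    have h11 := (ENNReal.tendsto_toReal ENNReal.zero_ne_top).comp h10
    refine h11.congr fun n => ?_
    simp only [Function.comp_apply]
    rw [ENNReal.toReal_ofReal (by positivity)]

end Pool.Agent.Results.MP_7da968_an.SpectrumOne
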